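import Pool.Agent.Helper97.Tate.Goals

/-!
TATE-SIM (project FewPoints, MP_d3128a_ag, captain helper97): simple points. No hypotheses.
-/

set_option autoImplicit false

noncomputable section

namespace Pool.Agent.Helper93.Tate.SIM

open Module Pool.Agent.Helper97.Tate

theorem mem_van_one {K : Type} [Field K] (P : Fin 3 → K) (z : MvPolynomial (Fin 3) K) :
    z ∈ Van P 1 ↔ MvPolynomial.eval P z = 0 := by
  have h0 : MvPolynomial.coeff 0 (tau P z) = MvPolynomial.eval P z := by
    have h : ((MvPolynomial.constantCoeff).comp
        ((tau P : MvPolynomial (Fin 3) K →ₐ[K] MvPolynomial (Fin 3) K) :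
          MvPolynomial (Fin 3) K →+* MvPolynomial (Fin 3) K)) = MvPolynomial.eval P := by
      apply MvPolynomial.ringHom_ext
      · intro r
        simp [tau]
      · intro i
        simp [tau]
    exact DFunLike.congr_fun h z
  constructor
  · intro h
    rw [← h0]
    exact h 0 (by simp)
  · intro h e he
    have h1 : e = 0 := by
      rw [← Finsupp.degree_eq_zero_iff]
      omega
    rw [h1, h0, h]

theorem t : S_SIM := by
  intro K _ _ W _ P F
  classical
  induction F using Finset.induction_on with
  | empty =>
    refine ⟨P, fun _ _ => rfl, ?_⟩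
    rw [Finset.card_empty, Nat.sub_zero]
    exact Submodule.finrank_mono inf_le_left
  | insert a F ha ih =>
    obtain ⟨P', hP', hr⟩ := ih
    set W' : Submodule K (MvPolynomial (Fin 3) K) := W ⊓ ⨅ i ∈ F, Van (P' i) 1 with hW'
    have hfin : FiniteDimensional K W' := Submodule.finiteDimensional_of_le inf_le_left
    have key : ∃ x : Fin 3 → K, finrank K (W' ⊓ Van x 1 : Submodule K (MvPolynomial (Fin 3) K)) ≤
        finrank K W' - 1 := by
      by_cases h : W' = ⊥
      · refine ⟨0, ?_⟩
        have h1 : (W' ⊓ Van (0 : Fin 3 → K) 1 : Submodule K (MvPolynomial (Fin 3) K)) = ⊥ := by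
          rw [h, bot_inf_eq]
        rw [h1, finrank_bot]
        exact Nat.zero_le _
      · obtain ⟨z, hz, hz0⟩ := Submodule.exists_mem_ne_zero_of_ne_bot h
        have h1 : ∃ x : Fin 3 → K, MvPolynomial.eval x z ≠ 0 := by
          by_contra hc
          push Not at hc
          apply hz0
          apply MvPolynomial.funext
          intro x
          rw [hc x, map_zero]
        obtain ⟨x, hx⟩ := h1
        refine ⟨x, ?_⟩
        have h2 : (W' ⊓ Van x 1 : Submodule K (MvPolynomial (Fin 3) K)) < W' := by
          refine lt_of_le_of_ne inf_le_left ?_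
          intro he
          have h3 : z ∈ (W' ⊓ Van x 1 : Submodule K (MvPolynomial (Fin 3) K)) := by
            rw [he]; exact hz
          exact hx ((mem_van_one x z).1 h3.2)
        have h4 := Submodule.finrank_lt_finrank_of_lt h2
        omega
    obtain ⟨x, hx⟩ := key
    refine ⟨Function.update P' a x, ?_, ?_⟩
    · intro i hi
      rw [Finset.mem_insert, not_or] at hi
      rw [Function.update_of_ne hi.1]
      exact hP' i hi.2
    · have h1 : (W ⊓ ⨅ i ∈ insert a F, Van (Function.update P' a x i) 1 :
          Submodule K (MvPolynomial (Fin 3) K)) ≤ W' ⊓ Van x 1 := by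
        intro z hz
        obtain ⟨h2, h3⟩ := Submodule.mem_inf.1 hz
        rw [Submodule.mem_iInf] at h3
        have h4 : ∀ i ∈ insert a F, z ∈ Van (Function.update P' a x i) 1 := fun i hi =>
          (Submodule.mem_iInf _).1 (h3 i) hi
        refine Submodule.mem_inf.2 ⟨Submodule.mem_inf.2 ⟨h2, ?_⟩, ?_⟩
        · refine (Submodule.mem_iInf _).2 fun i => (Submodule.mem_iInf _).2 fun hi => ?_
          have h5 := h4 i (Finset.mem_insert_of_mem hi)
          have h8 : i ≠ a := fun h => ha (h ▸ hi)
          have h6 : Function.update P' a x i = P' i :=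
            Function.update_of_ne h8 _ _
          rw [h6] at h5
          exact h5
        · have h5 := h4 a (Finset.mem_insert_self a F)
          have h6 : Function.update P' a x a = x := Function.update_self _ _ _
          rw [h6] at h5
          exact h5
      have hfin2 : FiniteDimensional K (W' ⊓ Van x 1 : Submodule K (MvPolynomial (Fin 3) K)) :=
        Submodule.finiteDimensional_of_le (inf_le_left : W' ⊓ Van x 1 ≤ W')
      have h7 := Submodule.finrank_mono h1
      rw [Finset.card_insert_of_notMem ha]
      omega

end Pool.Agent.Helper93.Tate.SIM
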