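import Pool.Agent.Helper97.Tate.Goals

/-!
Project FewPoints (MP_d3128a_ag), packet TATE-TWO: two points of the plane, by a linear change of
coordinates and monomials.
-/

set_option autoImplicit false

noncomputable section

namespace Pool.Agent.Helper93.Tate.TWO

open Pool.Agent.Helper97.Tate MvPolynomial Module

variable {K : Type} [Field K]

abbrev R3 (K : Type) [Field K] := MvPolynomial (Fin 3) K

/-! ### the coordinate points -/

/-- `X_t ↦ 0` -/
def kil (t : Fin 3) : R3 K →ₐ[K] R3 K := aeval fun c => if c = t then 0 else X c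

/-- `X_t ↦ 1` -/
def deh (t : Fin 3) : R3 K →ₐ[K] R3 K := aeval fun c => if c = t then 1 else X c

theorem kil_tau (t : Fin 3) (y : R3 K) : kil t (tau (Pi.single t 1) y) = deh t y := by
  have h : (kil t).comp (tau (Pi.single t (1 : K))) = deh t := by
    refine MvPolynomial.algHom_ext fun c => ?_
    rw [AlgHom.comp_apply]
    unfold tau kil deh
    rw [aeval_X, map_add, aeval_X, aeval_X]
    by_cases hc : c = t
    · subst hc
      rw [if_pos rfl, if_pos rfl, Pi.single_eq_same, zero_add, map_one, map_one]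
    · rw [if_neg hc, if_neg hc, Pi.single_eq_of_ne hc, map_zero, map_zero, add_zero]
  exact AlgHom.congr_fun h y

theorem kil_monomial (t : Fin 3) (m : Fin 3 →₀ ℕ) (c : K) :
    kil t (monomial m c) = if m t = 0 then monomial m c else 0 := by
  unfold kil
  rw [aeval_monomial]
  split_ifs with h
  · rw [monomial_eq, algebraMap_eq]
    congr 1
    refine Finset.prod_congr rfl fun i hi => ?_
    have : i ≠ t := by
      rintro rfl
      exact (Finsupp.mem_support_iff.1 hi) h
    dsimp only
    rw [if_neg this]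
  · have h1 : (m.prod fun i k => (if i = t then (0 : R3 K) else X i) ^ k) = 0 := by
      refine Finset.prod_eq_zero (Finsupp.mem_support_iff.2 h) ?_
      dsimp only
      rw [if_pos rfl, zero_pow h]
    rw [h1, mul_zero]

theorem coeff_kil (t : Fin 3) (f : R3 K) {d : Fin 3 →₀ ℕ} (hd : d t = 0) :
    coeff d (kil t f) = coeff d f := by
  induction f using MvPolynomial.induction_on' with
  | monomial m c =>
    rw [kil_monomial]
    split_ifs with h
    · rfl
    · rw [coeff_zero, coeff_monomial, if_neg]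
      rintro rfl
      exact h hd
  | add p q hp hq => rw [map_add, coeff_add, coeff_add, hp, hq]

theorem deh_monomial (t : Fin 3) (m : Fin 3 →₀ ℕ) (c : K) :
    deh t (monomial m c) = monomial (m.erase t) c := by
  unfold deh
  rw [aeval_monomial, monomial_eq (s := m.erase t), algebraMap_eq]
  congr 1
  rw [Finsupp.prod, Finsupp.prod, Finsupp.support_erase]
  rw [← Finset.prod_subset (Finset.erase_subset t m.support)]
  · refine Finset.prod_congr rfl fun i hi => ?_
    rw [Finset.mem_erase] at hi
    rw [if_neg hi.1, Finsupp.erase_ne hi.1]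
  · intro i hi hi'
    rw [Finset.mem_erase, not_and] at hi'
    have : i = t := by
      by_contra hne
      exact hi' hne hi
    rw [if_pos this, one_pow]

theorem deg3 (d : Fin 3 →₀ ℕ) : d.degree = d 0 + d 1 + d 2 := by
  rw [Finsupp.degree_eq_sum, Fin.sum_univ_three]

theorem erase_deg (t : Fin 3) (d : Fin 3 →₀ ℕ) : (d.erase t).degree + d t = d.degree := by
  rw [deg3, deg3]
  fin_cases t <;> simp [Finsupp.erase_apply] <;> omega

/-- the coefficients of the dehomogenization -/
theorem coeff_deh (t : Fin 3) {e : ℕ} {y : R3 K} (hy : y.IsHomogeneous e) {d : Fin 3 →₀ ℕ}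
    (hd : d.degree = e) : coeff (d.erase t) (deh t y) = coeff d y := by
  conv_lhs => rw [y.as_sum, map_sum, coeff_sum]
  have h1 : ∀ m ∈ y.support, coeff (d.erase t) (deh t (monomial m (coeff m y)))
      = if m = d then coeff m y else 0 := by
    intro m hm
    rw [deh_monomial, coeff_monomial]
    have hme : m.degree = e := by
      by_contra hne
      exact (mem_support_iff.1 hm) (hy.coeff_eq_zero hne)
    refine if_congr ?_ rfl rfl
    constructor
    · intro h
      have h2 := erase_deg t m
      have h3 := erase_deg t d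
      rw [h] at h2
      ext c
      by_cases hc : c = t
      · subst hc
        omega
      · have h4 := DFunLike.congr_fun h c
        rwa [Finsupp.erase_ne hc, Finsupp.erase_ne hc] at h4
    · rintro rfl
      rfl
  rw [Finset.sum_congr rfl h1, Finset.sum_ite_eq']
  split_ifs with h
  · rfl
  · exact (notMem_support_iff.1 h).symm

/-- a form of multiplicity `≥ a` at the `t`-th coordinate point -/
theorem van_coord (t : Fin 3) {e a : ℕ} {y : R3 K} (hy : y.IsHomogeneous e)
    (hv : y ∈ Van (Pi.single t 1) a) {d : Fin 3 →₀ ℕ} (hd : d.degree = e)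
    (hlt : e < d t + a) : coeff d y = 0 := by
  rw [← coeff_deh t hy hd, ← kil_tau, coeff_kil t _ Finsupp.erase_same]
  apply hv
  have := erase_deg t d
  omega

/-! ### linear substitutions -/

/-- the substitution with matrix `A` -/
def sub (A : Matrix (Fin 3) (Fin 3) K) : R3 K →ₐ[K] R3 K := aeval fun r => ∑ c, C (A c r) * X c

theorem sub_sub {A N : Matrix (Fin 3) (Fin 3) K} (h : N * A = 1) (z : R3 K) :
    sub N (sub A z) = z := by
  have h1 : (sub N).comp (sub A) = AlgHom.id K _ := by
    refine MvPolynomial.algHom_ext fun r => ?_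
    rw [AlgHom.comp_apply, AlgHom.id_apply]
    unfold sub
    rw [aeval_X, map_sum]
    simp only [map_mul, aeval_X, algHom_C, algebraMap_eq]
    simp only [Finset.mul_sum]
    rw [Finset.sum_comm]
    have h2 : ∀ s : Fin 3, ∑ c, C (A c r) * (C (N s c) * X s) = C ((1 : Matrix _ _ K) s r) * X s := by
      intro s
      rw [← h, Matrix.mul_apply, map_sum, Finset.sum_mul]
      refine Finset.sum_congr rfl fun c _ => ?_
      rw [map_mul]
      ring
    rw [Finset.sum_congr rfl fun s _ => h2 s]
    rw [Finset.sum_eq_single r]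
    · rw [Matrix.one_apply_eq, map_one, one_mul]
    · intro s _ hs
      rw [Matrix.one_apply_ne hs, map_zero, zero_mul]
    · intro h'
      exact absurd (Finset.mem_univ _) h'
  exact AlgHom.congr_fun h1 z

theorem lin_hom (A : Matrix (Fin 3) (Fin 3) K) (r : Fin 3) :
    (∑ c, C (A c r) * X c : R3 K).IsHomogeneous 1 := by
  refine IsHomogeneous.sum _ _ _ fun c _ => ?_
  have h := (isHomogeneous_C (Fin 3) (A c r)).mul (isHomogeneous_X K c)
  rwa [zero_add] at h

theorem sub_hom (A : Matrix (Fin 3) (Fin 3) K) {e : ℕ} {z : R3 K} (hz : z.IsHomogeneous e) :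
    (sub A z).IsHomogeneous e := by
  have h := hz.aeval (fun r => ∑ c, C (A c r) * X c) (lin_hom A)
  rwa [one_mul] at h

theorem sub_tau (A : Matrix (Fin 3) (Fin 3) K) (t : Fin 3) (z : R3 K) :
    sub A (tau (A t) z) = tau (Pi.single t 1) (sub A z) := by
  have h1 : (sub A).comp (tau (A t)) = (tau (Pi.single t (1 : K))).comp (sub A) := by
    refine MvPolynomial.algHom_ext fun r => ?_
    rw [AlgHom.comp_apply, AlgHom.comp_apply]
    unfold sub tau
    rw [aeval_X, aeval_X, map_add, aeval_X, map_sum]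
    simp only [map_mul, aeval_X, algHom_C, algebraMap_eq, mul_add, Finset.sum_add_distrib]
    congr 1
    rw [Finset.sum_eq_single t]
    · rw [Pi.single_eq_same, map_one, mul_one]
    · intro s _ hs
      rw [Pi.single_eq_of_ne hs, map_zero, mul_zero]
    · intro h'
      exact absurd (Finset.mem_univ _) h'
  exact AlgHom.congr_fun h1 z

/-- a substitution does not lower the order -/
theorem sub_ord (A : Matrix (Fin 3) (Fin 3) K) {a : ℕ} {f : R3 K}
    (hf : ∀ d : Fin 3 →₀ ℕ, d.degree < a → coeff d f = 0) (d : Fin 3 →₀ ℕ) (hd : d.degree < a) :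
    coeff d (sub A f) = 0 := by
  rw [f.as_sum, map_sum, coeff_sum]
  refine Finset.sum_eq_zero fun m hm => ?_
  have hma : a ≤ m.degree := by
    by_contra hlt
    exact (mem_support_iff.1 hm) (hf m (not_le.1 hlt))
  have h1 : (monomial m (coeff m f)).IsHomogeneous m.degree := isHomogeneous_monomial _ rfl
  exact (sub_hom A h1).coeff_eq_zero (by omega)

theorem sub_van (A : Matrix (Fin 3) (Fin 3) K) (t : Fin 3) {a : ℕ} {z : R3 K}
    (hz : z ∈ Van (A t) a) : sub A z ∈ Van (Pi.single t 1) a := by
  intro d hd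
  rw [← sub_tau]
  exact sub_ord A hz d hd

/-! ### the count -/

/-- the exponent of `(i, j)` -/
def dd (e : ℕ) (s : ℕ × ℕ) : Fin 3 →₀ ℕ :=
  Finsupp.equivFunOnFinite.symm ![e - s.1 - s.2, s.1, s.2]

theorem dd_eq {e : ℕ} {d : Fin 3 →₀ ℕ} (hd : d.degree = e) : dd e (d 1, d 2) = d := by
  rw [deg3] at hd
  ext c
  fin_cases c
  · simp [dd]; omega
  · simp [dd]
  · simp [dd]

/-- the allowed exponents -/
def Al (e a b : ℕ) : Finset (Σ _ : ℕ, ℕ) :=
  (Finset.range (e + 1 - a)).sigma fun i => Finset.range (e + 1 - max i b)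

theorem mem_Al {e a b : ℕ} {i j : ℕ} (h1 : i + a ≤ e) (h2 : j + b ≤ e) (h3 : i + j ≤ e) :
    (⟨i, j⟩ : Σ _ : ℕ, ℕ) ∈ Al e a b := by
  unfold Al
  rw [Finset.mem_sigma, Finset.mem_range, Finset.mem_range]
  constructor
  · dsimp only; omega
  · dsimp only
    rcases le_total i b with h | h
    · rw [max_eq_right h]; omega
    · rw [max_eq_left h]; omega

theorem sum1 (e b : ℕ) (k : ℕ) (hk : k ≤ b) :
    ∑ i ∈ Finset.range k, (e + 1 - max i b) = k * (e + 1 - b) := by
  rw [Finset.sum_congr rfl (g := fun _ => e + 1 - b) fun i hi => by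
    rw [Finset.mem_range] at hi
    rw [max_eq_right (by omega)]]
  rw [Finset.sum_const, Finset.card_range, smul_eq_mul]

theorem sum2 (e b : ℕ) (k : ℕ) (hk : b + k ≤ e + 1) :
    2 * ((∑ i ∈ Finset.range (b + k), (e + 1 - max i b) : ℕ) : ℤ)
      = ((e : ℤ) + 1) * (e + 2) - (e + 1 - (b + k)) * (e + 2 - (b + k)) - b * (b + 1) := by
  induction k with
  | zero =>
    rw [add_zero, sum1 e b b le_rfl]
    have h : ((e + 1 - b : ℕ) : ℤ) = (e : ℤ) + 1 - b := by omega
    push_cast [h]
    ring
  | succ k ih =>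
    have h1 := ih (by omega)
    rw [← add_assoc, Finset.sum_range_succ, max_eq_left (by omega)]
    have h : ((e + 1 - (b + k) : ℕ) : ℤ) = (e : ℤ) + 1 - (b + k) := by omega
    push_cast [h] at h1 ⊢
    linarith

theorem ch2 (n : ℕ) : 2 * (Nat.choose (n + 1) 2 : ℤ) = (n : ℤ) * (n + 1) := by
  have h := Nat.triangle_succ n
  have h1 : (n + 1).choose 2 = (n + 1) * n / 2 := by
    rw [Nat.choose_two_right, Nat.add_sub_cancel]
  have h2 : 2 ∣ (n + 1) * n := by
    rw [mul_comm]
    exact (Nat.even_mul_succ_self n).two_dvd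
  have h3 : 2 * ((n + 1).choose 2) = (n + 1) * n := by
    rw [h1]
    exact Nat.mul_div_cancel' h2
  have h4 : ((2 * ((n + 1).choose 2) : ℕ) : ℤ) = (((n + 1) * n : ℕ) : ℤ) := by rw [h3]
  push_cast at h4
  linarith

theorem card_Al {e a b : ℕ} (h : a + b ≤ e + 1) :
    ((Al e a b).card : ℤ) = (Nat.choose (e + 2) 2 : ℤ) - Nat.choose (a + 1) 2
      - Nat.choose (b + 1) 2 := by
  unfold Al
  rw [Finset.card_sigma]
  simp only [Finset.card_range]
  obtain ⟨k, hk⟩ : ∃ k, e + 1 - a = b + k := ⟨e + 1 - a - b, by omega⟩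
  rw [hk]
  have h1 := sum2 e b k (by omega)
  have h2 := ch2 (e + 1)
  have h3 := ch2 a
  have h4 := ch2 b
  have h5 : (b : ℤ) + k = (e : ℤ) + 1 - a := by omega
  rw [h5] at h1
  push_cast at h2
  have h6 : 2 * ((∑ i ∈ Finset.range (b + k), (e + 1 - max i b) : ℕ) : ℤ)
      = 2 * ((Nat.choose (e + 2) 2 : ℤ) - Nat.choose (a + 1) 2 - Nat.choose (b + 1) 2) := by
    rw [h1]
    have h7 : 2 * (((e + 2).choose 2 : ℕ) : ℤ) = ((e : ℤ) + 1) * (e + 1 + 1) := h2
    have h8 : ((e : ℤ) + 1) * (e + 2) - (e + 1 - (e + 1 - a)) * (e + 2 - (e + 1 - a)) - b * (b + 1)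
        = (e + 1) * (e + 1 + 1) - a * (a + 1) - b * (b + 1) := by ring
    linarith
  linarith

theorem t : S_TWO := by
  intro K _ p p' hp e a b hab
  obtain ⟨p'', hp''⟩ := exists_linearIndependent_cons_of_lt_finrank hp (by
    rw [Module.finrank_fin_fun]; omega)
  let A : Matrix (Fin 3) (Fin 3) K := Matrix.of (Fin.cons p'' ![p, p'] : Fin 3 → Fin 3 → K)
  have hA : IsUnit A := Matrix.linearIndependent_rows_iff_isUnit.1 hp''
  have hA1 : A 1 = p := rfl
  have hA2 : A 2 = p' := rfl
  have hN : A⁻¹ * A = 1 := Matrix.nonsing_inv_mul A ((Matrix.isUnit_iff_isUnit_det A).1 hA)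
  set W : Submodule K (MvPolynomial (Fin 3) K) := Fm K e ⊓ Van p a ⊓ Van p' b with hW
  have hF : Fm K (e : ℤ) = MvPolynomial.homogeneousSubmodule (Fin 3) K e := by
    unfold Fm
    rw [if_pos (Int.natCast_nonneg _), Int.toNat_natCast]
  let L : W →ₗ[K] (Al e a b → K) := LinearMap.pi fun s =>
    (lcoeff K (dd e (s.1.1, s.1.2))) ∘ₗ (sub A).toLinearMap ∘ₗ W.subtype
  have hL : ∀ (z : W) (s : Al e a b), L z s = coeff (dd e (s.1.1, s.1.2)) (sub A z.1) :=
    fun z s => rfl
  have hinj : Function.Injective L := by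
    rw [← LinearMap.ker_eq_bot, LinearMap.ker_eq_bot']
    rintro ⟨z, ⟨hz1, hz2⟩, hz3⟩ h0
    have hz1' : z.IsHomogeneous e := by
      rw [hF] at hz1
      exact hz1
    have hy := sub_hom A hz1'
    have hv1 : sub A z ∈ Van (Pi.single 1 1) a := sub_van A 1 hz2
    have hv2 : sub A z ∈ Van (Pi.single 2 1) b := sub_van A 2 hz3
    have hzero : sub A z = 0 := by
      ext d
      rw [coeff_zero]
      by_cases hd : d.degree = e
      · by_cases h1 : e < d 1 + a
        · exact van_coord 1 hy hv1 hd h1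
        · by_cases h2 : e < d 2 + b
          · exact van_coord 2 hy hv2 hd h2
          · have h3 : d 1 + d 2 ≤ e := by
              rw [deg3] at hd
              omega
            have h4 := congrFun h0 ⟨⟨d 1, d 2⟩, mem_Al (by omega) (by omega) h3⟩
            rw [hL] at h4
            change coeff (dd e (d 1, d 2)) (sub A z) = 0 at h4
            rwa [dd_eq hd] at h4
      · exact hy.coeff_eq_zero hd
    apply Subtype.ext
    change z = 0
    rw [← sub_sub hN z, hzero, map_zero]
  have h1 := LinearMap.finrank_le_finrank_of_injective hinj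
  rw [Module.finrank_fintype_fun_eq_card, Fintype.card_coe] at h1
  rw [← card_Al hab]
  exact_mod_cast h1

end Pool.Agent.Helper93.Tate.TWO
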